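import Pool.Agent.H.MP_739a3c_co.TypeA

set_option autoImplicit false

namespace Pool.Agent.Results.MP_739a3c_co.Bound

open Pool.Agent.Results.MP_6f4934_co.Bound (iv U det_two un_pt iv_U det_U)

def coef (n i j k l : ℕ) : Fin n → ℝ := fun t =>
  (if i ≤ t.val ∧ t.val < j then 1 else 0) - (if k ≤ t.val ∧ t.val < l then 1 else 0)

def TypeB (m : ℕ) (d : Fin (m + 1) → ℝ) : Prop :=
  (∀ t, 0 < d t) ∧ ∃ i j k l : Fin m → ℕ, (∀ r, i r < j r ∧ j r ≤ k r ∧ k r < l r ∧ l r ≤ m + 1) ∧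
    LinearIndependent ℝ (fun r => coef (m + 1) (i r) (j r) (k r) (l r)) ∧
    ∀ r, ∑ t, coef (m + 1) (i r) (j r) (k r) (l r) t * d t = 0

theorem result (m : ℕ) (d : Fin (m + 1) → ℝ) (hd : TypeB m d) (t : Fin (m + 1)) :
    ∑ s, d s ≤ 2 ^ m * d t := by
  obtain ⟨hpos, i, j, k, l, hijk, hli, heq⟩ := hd
  let M : Matrix (Fin (m + 1)) (Fin (m + 1)) ℤ :=
    Matrix.of (Fin.cons (iv (m + 1) 0 (m + 1))
      fun r => iv (m + 1) (i r) (j r) - iv (m + 1) (k r) (l r))
  have hM : |M.det| ≤ 2 ^ m := by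
    have h1 := det_two (m + 1) (Finset.univ.erase 0) (M * U (m + 1)) (fun r hr => by
      have hr : r = 0 := by simpa using hr
      subst hr
      exact ⟨_, _, un_pt _ _, un_pt _ _, iv_U (m + 1) 0 (m + 1) (by omega) le_rfl⟩) fun r hr => by
      obtain ⟨r, rfl⟩ := Fin.exists_succ_eq.2 (Finset.ne_of_mem_erase hr)
      obtain ⟨h1, h0, h2, h3⟩ := hijk r
      refine ⟨_, _, ⟨_, _, un_pt _ (j r), un_pt _ (i r), rfl⟩,
        ⟨_, _, un_pt _ (k r), un_pt _ (l r), rfl⟩, ?_⟩
      show Matrix.vecMul (iv (m + 1) (i r) (j r) - iv (m + 1) (k r) (l r)) (U (m + 1)) = _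
      rw [Matrix.sub_vecMul, iv_U _ _ _ h1.le (by omega), iv_U _ _ _ h2.le h3]
      ring
    simpa [det_U] using h1
  let N : Matrix (Fin (m + 1)) (Fin (m + 1)) ℝ := M.map (Int.castRingHom ℝ)
  have hN0 : N 0 = fun _ => 1 := by
    funext c
    have := c.2
    simp [N, M, iv]
    omega
  have hNs : ∀ r : Fin m, N r.succ = coef (m + 1) (i r) (j r) (k r) (l r) := fun r => by
    funext c
    simp [N, M, iv, coef]
  have hS : 0 < ∑ s, d s := Finset.sum_pos (fun s _ => hpos s) Finset.univ_nonempty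
  have hNd : N.mulVec d = Pi.single 0 (∑ s, d s) := by
    funext r
    refine Fin.cases ?_ (fun r => ?_) r
    · simp [Matrix.mulVec, dotProduct, hN0]
    · simp [Matrix.mulVec, dotProduct, hNs, heq]
  have hdet : N.det ≠ 0 := by
    intro h
    obtain ⟨c, hc, hcN⟩ := Matrix.exists_vecMul_eq_zero_iff.2 h
    have h1 : c ⬝ᵥ N.mulVec d = 0 := by rw [Matrix.dotProduct_mulVec, hcN, zero_dotProduct]
    rw [hNd, dotProduct_single] at h1
    have h2 : c 0 = 0 := (mul_eq_zero.1 h1).resolve_right hS.ne'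
    have h3 := Fintype.linearIndependent_iff.1 hli (fun r => c r.succ) (by
      funext a
      have := congrFun hcN a
      simpa [Matrix.vecMul, dotProduct, Fin.sum_univ_succ, h2, hNs] using this)
    apply hc
    funext r
    exact Fin.cases h2 h3 r
  have h4 : N.det * d t = (M.adjugate t 0 : ℝ) * ∑ s, d s := by
    have h5 : N.adjugate.mulVec (N.mulVec d) = N.det • d := by
      rw [Matrix.mulVec_mulVec, Matrix.adjugate_mul, Matrix.smul_mulVec, Matrix.one_mulVec]
    have h6 := congrFun h5 t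
    rw [hNd] at h6
    have h7 : N.adjugate = M.adjugate.map (Int.castRingHom ℝ) :=
      ((Int.castRingHom ℝ).map_adjugate M).symm
    rw [h7] at h6
    simpa [Matrix.mulVec, mul_comm] using h6.symm
  have h8 : M.adjugate t 0 ≠ 0 := by
    intro h
    rw [h] at h4
    simp [hdet, (hpos t).ne'] at h4
  have h9 : (1 : ℝ) ≤ |(M.adjugate t 0 : ℝ)| := by exact_mod_cast Int.one_le_abs h8
  have h10 : |N.det| ≤ 2 ^ m := by
    have : N.det = (M.det : ℝ) := ((Int.castRingHom ℝ).map_det M).symm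
    rw [this]
    exact_mod_cast hM
  have h11 := congrArg abs h4
  rw [abs_mul, abs_mul, abs_of_pos hS, abs_of_pos (hpos t)] at h11
  nlinarith [hpos t]

end Pool.Agent.Results.MP_739a3c_co.Bound
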